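import Pool.Agent.P.MP_0e199b_al.Defs

namespace Pool.Agent.P.MP_0e199b_al

/-- The minor with rows in `α` and columns in `β`, both taken in increasing order. -/
noncomputable def minor {n k : ℕ} (A : Matrix (Fin n) (Fin n) ℂ) {α β : Finset (Fin n)}
    (hα : α.card = k) (hβ : β.card = k) : ℂ :=
  (A.submatrix (α.orderEmbOfFin hα) (β.orderEmbOfFin hβ)).det

/-- Weakly sign-symmetric P-matrices: all principal minors are real and positive, and the product
of two symmetrically placed almost principal minors is real and nonnegative. -/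
def IsGKK {n : ℕ} (A : Matrix (Fin n) (Fin n) ℂ) : Prop :=
  (∀ α : Finset (Fin n), α.Nonempty → (princ A α).det.im = 0 ∧ 0 < (princ A α).det.re) ∧
  ∀ (k : ℕ) (α β : Finset (Fin n)) (hα : α.card = k) (hβ : β.card = k), (α ∪ β).card = k + 1 →
    (minor A hα hβ * minor A hβ hα).im = 0 ∧ 0 ≤ (minor A hα hβ * minor A hβ hα).re

end Pool.Agent.P.MP_0e199b_al
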