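import Pool.Agent.P.MP_0e199b_al.W.Upper

/-! The examples which fill the wedge. -/

namespace Pool.Agent.P.MP_0e199b_al

open Matrix Finset Real

variable {m : ℕ} {c v : ℝ}

/-- the family of examples -/
def ex (m : ℕ) (c v : ℝ) : Matrix (Fin (m + 1)) (Fin (m + 1)) ℂ := Matrix.of fun i j =>
  if i = Fin.last m then (c : ℂ) else if i < j then 1 - (v : ℂ) else if i = j then 1 else 0

/-- its characteristic function -/
def chi {R : Type} [CommRing R] (c v : R) (s : ℕ) (t : R) : R := c * (v - t) ^ s - t * (1 - t) ^ s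

theorem pm_ex {α : Finset (Fin (m + 1))} (h : Fin.last m ∉ α) (t : ℂ) :
    pm (ex m c v) t α = (1 - t) ^ α.card := by
  rw [pm, det_princ, det_of_isUpperTriangular]
  · rw [← prod_const, ← prod_ite_mem_eq α]
    refine prod_congr rfl fun i _ => ?_
    by_cases k : i ∈ α
    · simp [pad, ex, k, ne_of_mem_of_not_mem k h]
    · simp [pad, k]
  · intro i j (hij : j < i)
    by_cases k : i ∈ α
    · simp [pad, ex, ne_of_mem_of_not_mem k h, hij.ne', hij.not_gt]
    · simp [pad, k, hij.ne']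

theorem pm_ex_last {α : Finset (Fin (m + 1))} (h : Fin.last m ∉ α) (t : ℂ) :
    pm (ex m c v) t (insert (Fin.last m) α) = chi (c : ℂ) v α.card t := by
  rw [pm, det_princ]
  set N := pad (ex m c v - t • 1) (insert (Fin.last m) α) with hN
  let u : Fin (m + 1) → ℂ := fun j => if j ∈ insert (Fin.last m) α then 1 else 0
  have e : N = N.updateRow (Fin.last m) ((c : ℂ) • u + (-t) • Pi.single (Fin.last m) 1) := by
    conv_lhs => rw [← N.updateRow_eq_self (Fin.last m)]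
    congr 1
    funext j
    by_cases k : j = Fin.last m
    · simp [hN, pad, ex, u, k, sub_eq_add_neg]
    · by_cases k' : j ∈ α <;> simp [hN, pad, ex, u, k, k', Ne.symm k]
  have e1 : (N.updateRow (Fin.last m) (Pi.single (Fin.last m) 1)).det = (1 - t) ^ α.card := by
    rw [det_of_isUpperTriangular]
    · rw [← prod_const, ← prod_ite_mem_eq α]
      refine prod_congr rfl fun i _ => ?_
      by_cases l : i = Fin.last m
      · simp [l, h]
      · by_cases k : i ∈ α <;> simp [hN, pad, ex, k, l]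
    · intro i j (hij : j < i)
      by_cases l : i = Fin.last m
      · subst l; simp [hij.ne]
      · simp [hN, pad, ex, l, hij.ne', hij.not_gt]
  have e2 : (N.updateRow (Fin.last m) u).det = (v - t) ^ α.card := by
    let d : Fin (m + 1) → ℂ := fun i => if i ∈ α then 1 - v else 0
    rw [det_eq_of_forall_row_eq_smul_add_const
      (B := Matrix.of fun i j => N.updateRow (Fin.last m) u i j - d i * u j) d (Fin.last m)
      (by simp [d, h]) (by simp [d, h]), det_of_isLowerTriangular]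
    · rw [← prod_const, ← prod_ite_mem_eq α]
      refine prod_congr rfl fun i _ => ?_
      by_cases l : i = Fin.last m
      · simp [l, h, d, u]
      · by_cases k : i ∈ α <;> simp [hN, pad, ex, k, l, d, u]
    · intro i j (hij : i < j)
      have l : i ≠ Fin.last m := (hij.trans_le (Fin.le_last j)).ne
      by_cases k : i ∈ α <;> by_cases k' : j = Fin.last m ∨ j ∈ α <;>
        simp [hN, pad, ex, l, k, k', hij.ne, hij, d, u]
  rw [e, det_updateRow_add, det_updateRow_smul, det_updateRow_smul, e1, e2, chi]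
  ring

theorem real_mem {α : Finset (Fin (m + 1))} (h : Fin.last m ∉ α) (x : ℝ) :
    (x : ℂ) ∈ spectrum ℂ (princ (ex m c v) (insert (Fin.last m) α)) ↔ chi c v α.card x = 0 := by
  rw [mem_spec_pm, pm_ex_last h, ← Complex.ofReal_eq_zero]
  simp [chi]

theorem chi_pos (hc : 0 < c) (hv : 0 ≤ v) (s : ℕ) {x : ℝ} (hx : x < 0) : 0 < chi c v s x := by
  have h1 : 0 < c * (v - x) ^ s := mul_pos hc (pow_pos (by linarith) _)
  have h2 : 0 < -x * (1 - x) ^ s := mul_pos (by linarith) (pow_pos (by linarith) _)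
  unfold chi; linarith

theorem chi_root (hc : 0 < c) (hv : 0 ≤ v) {s : ℕ} {x : ℝ} (hx : 0 ≤ x) (h : chi c v s x ≤ 0) :
    ∃ y ≤ x, chi c v s y = 0 := by
  have h0 : 0 ≤ chi c v s 0 := by simp [chi]; positivity
  obtain ⟨y, hy, e⟩ := intermediate_value_Icc' hx
    (show ContinuousOn (chi c v s) _ by unfold chi; fun_prop) ⟨h, h0⟩
  exact ⟨y, hy.2, e⟩

theorem chi_root' (hc : 0 < c) (hv : 0 ≤ v) (hv1 : v ≤ 1) {s : ℕ} (hs : s ≠ 0) :
    ∃ y ≤ v, chi c v s y = 0 :=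
  chi_root hc hv hv (by simp [chi, hs]; exact mul_nonneg hv (pow_nonneg (by linarith) _))

theorem split_last (α : Finset (Fin (m + 1))) :
    Fin.last m ∉ α ∨ ∃ β, Fin.last m ∉ β ∧ α = insert (Fin.last m) β :=
  (em _).symm.imp_right fun h => ⟨α.erase _, notMem_erase _ _, (insert_erase h).symm⟩

theorem ex_nonneg (hc : 0 < c) (hv : 0 ≤ v) (α : Finset (Fin (m + 1))) {x : ℝ}
    (h : (x : ℂ) ∈ spectrum ℂ (princ (ex m c v) α)) : 0 ≤ x := by
  rcases split_last α with k | ⟨β, k, rfl⟩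
  · rw [mem_spec_pm, pm_ex k] at h
    have : (x : ℂ) = (1 : ℝ) := by simpa using (sub_eq_zero.1 (pow_eq_zero_iff'.1 h).1).symm
    rw [Complex.ofReal_injective this]; exact zero_le_one
  · exact not_lt.1 fun e => (chi_pos hc hv _ e).ne' ((real_mem k x).1 h)

theorem ex_isTau (hc : 0 < c) (hv : 0 ≤ v) (hv1 : v ≤ 1) : IsTau (ex m c v) := by
  refine ⟨fun α β hβ hs => ⟨le_sInf ?_, ?_⟩, ?_⟩
  · rintro _ ⟨x, rfl, hx⟩
    suffices ∃ y ≤ x, ((y : ℝ) : ℂ) ∈ spectrum ℂ (princ (ex m c v) α) from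
      let ⟨y, h1, h2⟩ := this; (lmin_le _ y h2).trans (EReal.coe_le_coe h1)
    rcases split_last α with k | ⟨α, k, rfl⟩
    · refine ⟨x, le_rfl, ?_⟩
      rw [mem_spec_pm, pm_ex fun e => k (hs e)] at hx
      rw [mem_spec_pm, pm_ex k, (pow_eq_zero_iff'.1 hx).1, zero_pow (hβ.mono hs).card_pos.ne']
    simp only [real_mem k]
    rcases split_last β with l | ⟨β, l, rfl⟩
    · rw [mem_spec_pm, pm_ex l] at hx
      have : (x : ℂ) = (1 : ℝ) := by simpa using (sub_eq_zero.1 (pow_eq_zero_iff'.1 hx).1).symm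
      obtain ⟨y, h1, h2⟩ := chi_root' hc hv hv1
        (hβ.mono ((subset_insert_iff_of_notMem l).1 hs)).card_pos.ne'
      exact ⟨y, by rw [Complex.ofReal_injective this]; linarith, h2⟩
    have x0 := ex_nonneg hc hv _ hx
    rw [real_mem l] at hx
    obtain ⟨d, hd⟩ := Nat.exists_eq_add_of_le (card_le_card
      ((subset_insert_iff_of_notMem l).1 ((subset_insert _ _).trans hs)))
    rcases Nat.eq_zero_or_pos d with rfl | d0
    · exact ⟨x, le_rfl, by rwa [hd]⟩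
    rcases le_total v x with h | h
    · obtain ⟨y, h1, h2⟩ := chi_root' hc hv hv1 (s := α.card) (by omega)
      exact ⟨y, h1.trans h, h2⟩
    · refine chi_root hc hv x0 ?_
      have h1 : (v - x) ^ d ≤ (1 - x) ^ d := pow_le_pow_left₀ (by linarith) (by linarith) _
      have h2 : 0 ≤ c * (v - x) ^ β.card := mul_nonneg hc.le (pow_nonneg (by linarith) _)
      unfold chi at hx ⊢
      rw [hd, pow_add, pow_add, ← mul_assoc, ← mul_assoc, ← sub_eq_zero.1 hx]
      nlinarith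
  · suffices ∃ y : ℝ, (y : ℂ) ∈ spectrum ℂ (princ (ex m c v) β) from
      let ⟨y, h⟩ := this; (lmin_le _ y h).trans_lt (EReal.coe_lt_top _)
    rcases split_last β with l | ⟨β, l, rfl⟩
    · exact ⟨1, by simp [mem_spec_pm, pm_ex l, hβ.ne_empty]⟩
    simp only [real_mem l]
    by_cases h : β.card = 0
    · exact ⟨c, by simp [h, chi]⟩
    · exact let ⟨y, _, h2⟩ := chi_root' hc hv hv1 h; ⟨y, h2⟩
  · refine le_sInf ?_
    rintro _ ⟨x, rfl, hx⟩
    exact EReal.coe_nonneg.2 (ex_nonneg hc hv univ (by rwa [spec_princ_univ]))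

theorem pm_ex_zero (α : Finset (Fin (m + 1))) : pm (ex m c v) 0 α =
    ((if Fin.last m ∈ α then c * v ^ (α.card - 1) else 1 : ℝ) : ℂ) := by
  rcases split_last α with k | ⟨β, k, rfl⟩
  · simp [pm_ex k, k]
  · simp [pm_ex_last k, k, chi]

theorem ex_isGKK (hc : 0 < c) (hv : 0 < v) (hv1 : v ≤ 1) : IsGKK (ex m c v) := by
  have pos : ∀ α : Finset (Fin (m + 1)),
      0 < (if Fin.last m ∈ α then c * v ^ (α.card - 1) else 1 : ℝ) := fun α => by
    split_ifs <;> positivity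
  refine ⟨fun α _ => ?_, fun k α β hα hβ h => ?_⟩
  · rw [← pm_zero, pm_ex_zero]
    exact ⟨Complex.ofReal_im _, pos α⟩
  obtain ⟨i, hi⟩ := card_eq_one.1 (show (α \ β).card = 1 by
    have := card_sdiff_add_card α β; omega)
  obtain ⟨j, hj⟩ := card_eq_one.1 (show (β \ α).card = 1 by
    have := card_sdiff_add_card β α; rw [union_comm] at this; omega)
  have i1 := mem_sdiff.1 (hi ▸ mem_singleton_self i)
  have j1 := mem_sdiff.1 (hj ▸ mem_singleton_self j)
  have hij : i ≠ j := fun e => i1.2 (e ▸ j1.1)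
  obtain ⟨γ, gi, gj, rfl, rfl⟩ : ∃ γ, i ∉ γ ∧ j ∉ γ ∧ α = insert i γ ∧ β = insert j γ :=
    ⟨α ∩ β, by simp [i1.2], by simp [j1.2], by rw [insert_eq, ← hi, sdiff_union_inter],
      by rw [insert_eq, ← hj, inter_comm, sdiff_union_inter]⟩
  rw [desnanot _ (by rw [pm_ex_zero]; exact_mod_cast (pos γ).ne') gi gj hij]
  simp only [pm_ex_zero, ← Complex.ofReal_mul, ← Complex.ofReal_sub, Complex.ofReal_im,
    Complex.ofReal_re, true_and]
  rw [card_insert_of_notMem (show i ∉ insert j γ by simp [hij, gi]), card_insert_of_notMem gi,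
    card_insert_of_notMem gj]
  have key : 0 ≤ c * v ^ γ.card - c * v ^ (γ.card + 1) := by
    rw [pow_succ]; nlinarith [mul_pos hc (pow_pos hv γ.card)]
  by_cases g : Fin.last m ∈ γ
  · obtain ⟨s, hs⟩ := Nat.exists_eq_succ_of_ne_zero (card_pos.2 ⟨_, g⟩).ne'
    simp only [mem_insert, g, or_true, if_true, hs, Nat.succ_eq_add_one, Nat.add_sub_cancel]
    exact le_of_eq (by ring)
  · by_cases a : Fin.last m = i
    · subst a; simpa [g, hij] using key
    · by_cases b : Fin.last m = j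
      · subst b; simpa [g, a] using key
      · simp [g, a, b]

theorem mem_ex (z : ℂ) : z ∈ spectrum ℂ (ex m c v) ↔ chi (c : ℂ) v m z = 0 := by
  rw [← spec_princ_univ, mem_spec_pm, ← insert_erase (mem_univ (Fin.last m)),
    pm_ex_last (notMem_erase _ _)]
  simp

/-- A triangle with prescribed angles. -/
theorem triangle {a φ : ℝ} (h0 : 0 < a) (h1 : a < φ) (h2 : φ < π) :
    ∃ r ρ : ℝ, 0 < r ∧ 0 < ρ ∧ (2 * a ≤ φ → r ≤ 1) ∧ ∀ ε : ℝ, ε = 1 ∨ ε = -1 →
      1 + r * Complex.exp ((ε * φ : ℝ) * Complex.I) = ρ * Complex.exp ((ε * a : ℝ) * Complex.I) := by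
  have s1 := sin_pos_of_pos_of_lt_pi h0 (by linarith)
  have s2 := sin_pos_of_pos_of_lt_pi (show 0 < φ by linarith) h2
  have s3 := sin_pos_of_pos_of_lt_pi (show 0 < φ - a by linarith) (by linarith)
  refine ⟨sin a / sin (φ - a), sin φ / sin (φ - a), by positivity, by positivity, fun h => ?_, ?_⟩
  · rw [div_le_one s3]
    by_cases k : φ - a ≤ π / 2
    · exact sin_le_sin_of_le_of_le_pi_div_two (by linarith) k (by linarith)
    · rw [← sin_pi_sub (φ - a)]
      exact sin_le_sin_of_le_of_le_pi_div_two (by linarith) (by linarith) (by linarith)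
  · have e : 1 + sin a / sin (φ - a) * cos φ = sin φ / sin (φ - a) * cos a := by
      field_simp
      rw [sin_sub]; ring
    rintro _ (rfl | rfl) <;> apply Complex.ext <;>
      simp only [Complex.add_re, Complex.add_im, Complex.re_ofReal_mul, Complex.im_ofReal_mul,
        Complex.exp_ofReal_mul_I_re, Complex.exp_ofReal_mul_I_im, Complex.one_re, Complex.one_im,
        one_mul, neg_mul, cos_neg, sin_neg, e] <;> ring

theorem exp_shift {ε x y : ℝ} (hε : ε = 1 ∨ ε = -1) (h : x = y + ε * π) :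
    Complex.exp (x * Complex.I) = -Complex.exp (y * Complex.I) := by
  rcases hε with rfl | rfl <;> simp [h, add_mul, Complex.exp_add, Complex.exp_neg]

theorem sign_split (θ : ℝ) : ∃ ε : ℝ, (ε = 1 ∨ ε = -1) ∧ θ = ε * |θ| := by
  rcases le_total 0 θ with h | h
  · exact ⟨1, Or.inl rfl, by simp [abs_of_nonneg h]⟩
  · exact ⟨-1, Or.inr rfl, by simp [abs_of_nonpos h]⟩

theorem arg_polar {r θ : ℝ} (hr : 0 < r) (h : |θ| < π) :
    (r * Complex.exp (θ * Complex.I) : ℂ).arg = θ := by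
  rw [Complex.exp_mul_I]
  exact Complex.arg_mul_cos_add_sin_mul_I hr ⟨(abs_lt.1 h).1, (abs_lt.1 h).2.le⟩

theorem exp_pow (x : ℝ) (k : ℕ) :
    Complex.exp (x * Complex.I) ^ k = Complex.exp ((k * x : ℝ) * Complex.I) := by
  rw [← Complex.exp_nat_mul]; push_cast; ring_nf

theorem root_sing {k : ℕ} {θ : ℝ} (h : |θ| < π - π / ((k : ℝ) + 2)) : ∃ r c : ℝ, 0 < r ∧ 0 < c ∧
    chi (c : ℂ) (0 : ℝ) (k + 3) (r * Complex.exp (θ * Complex.I)) = 0 := by
  by_cases h0 : θ = 0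
  · refine ⟨2, 2 / 2 ^ (k + 3), by norm_num, by positivity, ?_⟩
    simp only [h0, chi]
    push_cast
    rw [zero_mul, Complex.exp_zero, show (0 : ℂ) - 2 * 1 = 2 * -1 by norm_num,
      show (1 : ℂ) - 2 * 1 = -1 by norm_num, mul_pow]
    field_simp
    ring
  obtain ⟨ε, hε, e⟩ := sign_split θ
  have hp := abs_pos.2 h0
  generalize |θ| = x at h e hp
  have hk : (0 : ℝ) ≤ k := k.cast_nonneg
  rw [lt_sub_comm, div_lt_iff₀ (by positivity)] at h
  obtain ⟨a, ha⟩ : ∃ a, ((k : ℝ) + 3) * a = (π - x) * (k + 2) - π :=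
    ⟨_, mul_div_cancel₀ _ (by positivity)⟩
  have hx : 0 < π - x := by nlinarith [pi_pos]
  obtain ⟨r, ρ, hr, hρ, -, t⟩ := triangle (a := a) (φ := π - x) (by nlinarith)
    (by nlinarith [pi_pos]) (by linarith)
  have t1 := t (-ε) (hε.symm.imp (by simp +contextual) (by simp +contextual))
  have t2 : Complex.exp (θ * Complex.I) = -Complex.exp ((-ε * (π - x) : ℝ) * Complex.I) :=
    exp_shift hε (by rw [e]; ring)
  have t3 : Complex.exp (((k + 3 : ℕ) * (-ε * a) : ℝ) * Complex.I) =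
      -Complex.exp (((k + 2 : ℕ) * (-ε * (π - x)) : ℝ) * Complex.I) :=
    exp_shift hε (by push_cast; linear_combination -ε * ha)
  refine ⟨r, ρ ^ (k + 3) / r ^ (k + 2), hr, by positivity, ?_⟩
  rw [chi, t2, mul_neg, sub_neg_eq_add, sub_neg_eq_add, t1, mul_pow, exp_pow, t3, ← exp_pow]
  have : (r : ℂ) ≠ 0 := by exact_mod_cast hr.ne'
  push_cast
  field_simp
  ring

theorem root_reg {k : ℕ} {θ : ℝ} (h : |θ| < π - π / ((k : ℝ) + 2)) : ∃ r c v : ℝ, 0 < r ∧ 0 < c ∧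
    0 < v ∧ v ≤ 1 ∧ chi (c : ℂ) v (k + 3) (r * Complex.exp (θ * Complex.I)) = 0 := by
  by_cases h0 : θ = 0
  · exact ⟨1, 1, 1, one_pos, one_pos, one_pos, le_rfl, by simp [h0, chi]⟩
  obtain ⟨ε, hε, e⟩ := sign_split θ
  have hp := abs_pos.2 h0
  generalize |θ| = x at h e hp
  have hk : (0 : ℝ) ≤ k := k.cast_nonneg
  rw [lt_sub_comm, div_lt_iff₀ (by positivity)] at h
  obtain ⟨a, ha⟩ : ∃ a, 2 * ((k : ℝ) + 3) * a = (π - x) * (k + 2) - π :=
    ⟨_, mul_div_cancel₀ _ (by positivity)⟩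
  have a0 : 0 < a := by nlinarith
  have a1 : 2 * a ≤ π - x := by nlinarith [pi_pos]
  obtain ⟨r, ρ, hr, hρ, r1, t⟩ := triangle (a := a) (φ := π - x) a0 (by linarith) (by linarith)
  have t0 := t ε hε
  have t1 := t (-ε) (hε.symm.imp (by simp +contextual) (by simp +contextual))
  have t2 : Complex.exp (θ * Complex.I) = -Complex.exp ((-ε * (π - x) : ℝ) * Complex.I) :=
    exp_shift hε (by rw [e]; ring)
  have t3 : Complex.exp (((k + 3 : ℕ) * (-ε * a) : ℝ) * Complex.I) =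
      -Complex.exp (((k + 2 : ℕ) * (-ε * (π - x)) + (k + 3 : ℕ) * (ε * a) : ℝ) * Complex.I) :=
    exp_shift hε (by push_cast; linear_combination -ε * ha)
  have t4 : ((r ^ 2 : ℝ) : ℂ) + r * Complex.exp ((-ε * (π - x) : ℝ) * Complex.I) =
      r * Complex.exp ((-ε * (π - x) : ℝ) * Complex.I) *
        (ρ * Complex.exp ((ε * a : ℝ) * Complex.I)) := by
    rw [← t0, mul_add, mul_mul_mul_comm, ← Complex.exp_add]
    push_cast
    ring_nf
    simp [add_comm]
  refine ⟨r, 1 / r ^ (k + 2), r ^ 2, hr, by positivity, by positivity,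
    pow_le_one₀ hr.le (r1 a1), ?_⟩
  rw [chi, t2, mul_neg, sub_neg_eq_add, sub_neg_eq_add, t1, t4, mul_pow (ρ : ℂ), exp_pow, t3,
    Complex.ofReal_add, add_mul, Complex.exp_add, ← exp_pow, ← exp_pow]
  have : (r : ℂ) ≠ 0 := by exact_mod_cast hr.ne'
  push_cast
  field_simp
  ring

theorem cast_sub_two (k : ℕ) : ((k + 4 : ℕ) : ℝ) - 2 = k + 2 := by push_cast; ring

theorem abs_lt_pi {k : ℕ} {θ : ℝ} (h : |θ| < π - π / ((k : ℝ) + 2)) : |θ| < π :=
  h.trans_le (sub_le_self _ (by positivity))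

theorem tau_wedge (n : ℕ) (hn : 4 ≤ n) (θ : ℝ) :
    (∃ A : Matrix (Fin n) (Fin n) ℂ, IsTau A ∧ ∃ z ∈ spectrum ℂ A, z ≠ ((lmin A).toReal : ℂ) ∧
      Complex.arg (z - ((lmin A).toReal : ℂ)) = θ) ↔ |θ| < π - π / ((n : ℝ) - 2) := by
  obtain ⟨k, rfl⟩ := Nat.exists_eq_add_of_le' hn
  rw [cast_sub_two]
  refine ⟨fun ⟨A, h, z, h1, h2, h3⟩ => h3 ▸ wedge_omega A h.1 h1 h2, fun h => ?_⟩
  obtain ⟨r, c, hr, hc, e⟩ := root_sing h
  have l : lmin (ex (k + 3) c 0) = (0 : ℝ) := lmin_eq _ 0 ((mem_ex _).2 (by simp [chi]))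
    fun y hy => ex_nonneg hc le_rfl univ (by rwa [spec_princ_univ])
  refine ⟨ex (k + 3) c 0, ex_isTau hc le_rfl zero_le_one, _, (mem_ex _).2 e, ?_, ?_⟩
  · simp [l, hr.ne']
  · simpa [l] using arg_polar hr (abs_lt_pi h)

theorem gkk_tau_ex {k : ℕ} {θ : ℝ} (h : |θ| < π - π / ((k : ℝ) + 2)) :
    ∃ A : Matrix (Fin (k + 4)) (Fin (k + 4)) ℂ, IsGKK A ∧ IsTau A ∧
      ∃ z ∈ spectrum ℂ A, Complex.arg z = θ :=
  let ⟨_, c, v, hr, hc, hv, hv1, e⟩ := root_reg h
  ⟨ex (k + 3) c v, ex_isGKK hc hv hv1, ex_isTau hc hv.le hv1, _, (mem_ex _).2 e,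
    arg_polar hr (abs_lt_pi h)⟩

theorem gkk_tau_wedge (n : ℕ) (hn : 4 ≤ n) (θ : ℝ) :
    (∃ A : Matrix (Fin n) (Fin n) ℂ, IsGKK A ∧ IsTau A ∧ ∃ z ∈ spectrum ℂ A, Complex.arg z = θ) ↔
      |θ| < π - π / ((n : ℝ) - 2) := by
  obtain ⟨k, rfl⟩ := Nat.exists_eq_add_of_le' hn
  rw [cast_sub_two]
  exact ⟨fun ⟨A, h, _, z, h1, h2⟩ => h2 ▸ wedge_gkk A h h1, gkk_tau_ex⟩

theorem gkk_wedge (n : ℕ) (hn : 4 ≤ n) (θ : ℝ) :
    (∃ A : Matrix (Fin n) (Fin n) ℂ, IsGKK A ∧ ∃ z ∈ spectrum ℂ A, Complex.arg z = θ) ↔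
      |θ| < π - π / ((n : ℝ) - 2) := by
  obtain ⟨k, rfl⟩ := Nat.exists_eq_add_of_le' hn
  rw [cast_sub_two]
  exact ⟨fun ⟨A, h, z, h1, h2⟩ => h2 ▸ wedge_gkk A h h1,
    fun h => let ⟨A, h1, _, h2⟩ := gkk_tau_ex h; ⟨A, h1, h2⟩⟩

end Pool.Agent.P.MP_0e199b_al
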