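import Mathlib

/-! A wedge without roots for polynomials whose coefficients come from a set function with
Fischer type inequalities. -/

namespace Pool.Agent.P.MP_0e199b_al

open Finset Real

theorem trig_core {m : ℕ} (b : ℕ → ℝ) (hb : ∀ k, 0 ≤ b k) {θ : ℝ} (h0 : 0 ≤ θ)
    (h1 : ((m : ℝ) + 2) * θ ≤ π) (hs : ∑ k ∈ range (m + 5), b k * sin (k * θ) = 0) :
    b 1 * sin θ + b 2 * sin (2 * θ) ≤ b (m + 3) * sin θ + 2 * b (m + 4) * sin (2 * θ) := by
  have hm : (0 : ℝ) ≤ m * θ := by positivity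
  have s1 : 0 ≤ sin θ := sin_nonneg_of_nonneg_of_le_pi h0 (by linarith)
  have s2 : 0 ≤ sin (2 * θ) := sin_nonneg_of_nonneg_of_le_pi (by linarith) (by linarith)
  have c1 : 0 ≤ cos θ := cos_nonneg_of_neg_pi_div_two_le_of_le (by linarith [pi_pos]) (by linarith)
  have sx : 0 ≤ sin ((m + 2) * θ) := sin_nonneg_of_nonneg_of_le_pi (by positivity) h1
  have cx := neg_one_le_cos ((m + 2) * θ)
  have e3 : -sin θ ≤ sin (((m + 3 : ℕ) : ℝ) * θ) := by
    rw [show ((m + 3 : ℕ) : ℝ) * θ = (m + 2) * θ + θ by push_cast; ring, sin_add]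
    nlinarith [mul_nonneg sx c1]
  have e4 : -(2 * sin (2 * θ)) ≤ sin (((m + 4 : ℕ) : ℝ) * θ) := by
    rw [show ((m + 4 : ℕ) : ℝ) * θ = (m + 2) * θ + 2 * θ by push_cast; ring, sin_add]
    have : -sin (2 * θ) ≤ sin ((m + 2) * θ) * cos (2 * θ) := by
      by_cases h : 2 * θ ≤ π / 2
      · have := cos_nonneg_of_neg_pi_div_two_le_of_le (x := 2 * θ) (by linarith [pi_pos]) h
        nlinarith [mul_nonneg sx this]
      · have : sin ((m + 2) * θ) ≤ sin (2 * θ) := by
          rw [← sin_pi_sub, ← sin_pi_sub (2 * θ)]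
          exact sin_le_sin_of_le_of_le_pi_div_two (by linarith [pi_pos]) (by linarith) (by linarith)
        nlinarith [neg_one_le_cos (2 * θ)]
    nlinarith
  have e5 : ∑ k ∈ range 3, b k * sin (k * θ) ≤ ∑ k ∈ range (m + 3), b k * sin (k * θ) :=
    sum_le_sum_of_subset_of_nonneg (range_subset_range.2 (by omega)) fun k hk _ =>
      mul_nonneg (hb k) (sin_nonneg_of_nonneg_of_le_pi (by positivity) (le_trans
        (mul_le_mul_of_nonneg_right (by exact_mod_cast Nat.lt_succ_iff.1 (mem_range.1 hk)) h0) h1))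
  rw [sum_range_succ, sum_range_succ] at hs
  simp only [sum_range_succ, range_zero, sum_empty, Nat.cast_zero, zero_mul, sin_zero, mul_zero,
    zero_add, Nat.cast_one, one_mul, Nat.cast_ofNat] at e5
  rw [← sum_range_succ, ← sum_range_succ, ← sum_range_succ] at e5
  nlinarith [mul_le_mul_of_nonneg_left e3 (hb (m + 3)), mul_le_mul_of_nonneg_left e4 (hb (m + 4))]

theorem wedge_seq {m : ℕ} (b : ℕ → ℝ) (hb : ∀ k, 0 ≤ b k) (h0 : 0 < b 0)
    (hP : ∀ k : ℕ, ((k : ℝ) + 1) * (b (k + 1) * b 0) ≤ b 1 * b k)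
    (hD : ((m : ℝ) + 3) * (b 1 * b (m + 4)) ≤ b (m + 3) * b 2) {θ : ℝ}
    (hθ : ((m : ℝ) + 2) * |θ| ≤ π) (hc : ∑ k ∈ range (m + 5), b k * cos (k * θ) = 0)
    (hs : ∑ k ∈ range (m + 5), b k * sin (k * θ) = 0) : False := by
  wlog hp : 0 ≤ θ generalizing θ
  · exact this (θ := -θ) (by rwa [abs_neg]) (by simpa using hc) (by simpa using hs) (by linarith)
  rw [abs_of_nonneg hp] at hθ
  have hm : (0 : ℝ) ≤ m := m.cast_nonneg
  have hm' : (0 : ℝ) ≤ m * θ := by positivity
  have van : ∀ j, b j = 0 → ∀ k, b (j + k) = 0 := fun j hj k => by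
    induction k with
    | zero => exact hj
    | succ k ih =>
      have := hP (j + k)
      rw [ih, mul_zero] at this
      refine le_antisymm (not_lt.1 fun h => ?_) (hb _)
      exact not_lt.2 this (mul_pos (by positivity) (mul_pos h h0))
  have p1 : 0 < b 1 := (hb 1).lt_of_ne' fun h => by
    rw [sum_range_succ'] at hc
    simp [add_comm _ 1, van 1 h, h0.ne'] at hc
  rcases hp.eq_or_lt with rfl | hp'
  · exact (sum_pos' (fun k _ => by simpa using hb k) ⟨0, by simp, by simpa using h0⟩).ne' hc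
  have s1 : 0 < sin θ := sin_pos_of_pos_of_lt_pi hp' (by linarith)
  have p2 : 0 < b 2 := (hb 2).lt_of_ne' fun h => by
    rw [sum_range_succ', sum_range_succ'] at hs
    simp [add_comm _ 2, van 2 h, p1.ne', s1.ne'] at hs
  have hP' := hP (m + 2)
  push_cast at hP'
  rcases (show 2 * θ ≤ π by linarith).eq_or_lt with e | e
  · obtain rfl : m = 0 := by
      have : (m : ℝ) * θ = 0 := by linarith
      simpa [hp'.ne'] using this
    obtain rfl : θ = π / 2 := by linarith
    have a3 : (3 : ℝ) * (π / 2) = π / 2 + π := by ring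
    have a4 : (4 : ℝ) * (π / 2) = 2 * π := by ring
    simp [sum_range_succ, e, a3, a4] at hc hs hD hP'
    have : b 3 = b 1 := by linarith
    rw [this] at hD hP'
    nlinarith
  have s2 : 0 < sin (2 * θ) := sin_pos_of_pos_of_lt_pi (by linarith) e
  rcases le_total (b (m + 3)) (b 1) with h | h
  · have := trig_core b hb hp hθ hs
    have h3 : b 2 ≤ 2 * b (m + 4) := by nlinarith
    nlinarith [mul_le_mul h h3 p2.le p1.le, mul_pos p1 (show 0 < b (m + 4) by linarith)]
  · have := trig_core (m := m) (fun k => b (m + 4 - k)) (fun k => hb _) hp hθ (by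
      rw [← sum_range_reflect]
      have : ∀ k ∈ range (m + 5), b (m + 4 - (m + 5 - 1 - k)) * sin (((m + 5 - 1 - k : ℕ) : ℝ) * θ) =
          sin ((m + 4) * θ) * (b k * cos (k * θ)) - cos ((m + 4) * θ) * (b k * sin (k * θ)) := by
        intro k hk
        have hk' : k ≤ m + 4 := Nat.lt_succ_iff.1 (mem_range.1 hk)
        rw [show m + 5 - 1 - k = m + 4 - k from rfl, Nat.sub_sub_self hk', Nat.cast_sub hk', sub_mul,
          sin_sub]
        push_cast; ring
      rw [sum_congr rfl this, sum_sub_distrib, ← mul_sum, ← mul_sum, hc, hs]; simp)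
    simp only [show m + 4 - 1 = m + 3 from rfl, show m + 4 - 2 = m + 2 from rfl,
      show m + 4 - (m + 3) = 1 by omega, Nat.sub_self] at this
    have h3 : b (m + 2) ≤ 2 * b 0 := by nlinarith
    nlinarith [mul_le_mul h h3 (hb _) (hb _), mul_pos (p1.trans_le h) h0]

variable {ι : Type} [Fintype ι] [DecidableEq ι]

/-- the sum over the sets of one size -/
noncomputable def lvl (g : Finset ι → ℝ) (k : ℕ) : ℝ := ∑ S ∈ powersetCard k univ, g S

theorem lvl_step (g : Finset ι → ℝ) (hg : ∀ S, 0 ≤ g S)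
    (H : ∀ S i, i ∉ S → g (insert i S) * g ∅ ≤ g {i} * g S) (k : ℕ) :
    ((k : ℝ) + 1) * (lvl g (k + 1) * lvl g 0) ≤ lvl g 1 * lvl g k := by
  have e0 : lvl g 0 = g ∅ := by simp [lvl]
  have e1 : lvl g 1 = ∑ i, g {i} := by simp [lvl, powersetCard_one]
  have e2 : ((k : ℝ) + 1) * (lvl g (k + 1) * lvl g 0) =
      ∑ i, ∑ S ∈ (powersetCard (k + 1) univ).filter (i ∈ ·), g S * g ∅ := by
    rw [e0, lvl, sum_mul, mul_sum]
    simp only [sum_filter]
    rw [sum_comm]
    refine sum_congr rfl fun S hS => ?_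
    simp [(mem_powersetCard.1 hS).2]
  rw [e2, e1, sum_mul]
  refine sum_le_sum fun i _ => ?_
  calc ∑ S ∈ (powersetCard (k + 1) univ).filter (i ∈ ·), g S * g ∅
      ≤ ∑ S ∈ (powersetCard (k + 1) univ).filter (i ∈ ·), g {i} * g (S.erase i) :=
        sum_le_sum fun S hS => by
          simpa [insert_erase (mem_filter.1 hS).2] using H (S.erase i) i (notMem_erase _ _)
    _ = g {i} * ∑ T ∈ ((powersetCard (k + 1) univ).filter (i ∈ ·)).image (·.erase i), g T := by
        rw [sum_image fun S hS T hT e => by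
          rw [← insert_erase (mem_filter.1 hS).2, ← insert_erase (mem_filter.1 hT).2]
          exact congrArg _ e, mul_sum]
    _ ≤ g {i} * lvl g k := by
        refine mul_le_mul_of_nonneg_left (sum_le_sum_of_subset_of_nonneg (fun T hT => ?_)
          fun T _ _ => hg T) (hg _)
        obtain ⟨S, hS, rfl⟩ := mem_image.1 hT
        simp [card_erase_of_mem (mem_filter.1 hS).2, (mem_powersetCard.1 (mem_filter.1 hS).1).2]

theorem lvl_compl (g : Finset ι → ℝ) {k l : ℕ} (h : k + l = Fintype.card ι) :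
    lvl (fun S => g Sᶜ) k = lvl g l :=
  sum_bij' (fun S _ => Sᶜ) (fun S _ => Sᶜ)
    (fun S hS => by simp [card_compl, (mem_powersetCard.1 hS).2, ← h])
    (fun S hS => by simp [card_compl, (mem_powersetCard.1 hS).2, ← h])
    (fun _ _ => compl_compl _) (fun _ _ => compl_compl _) fun _ _ => rfl

theorem abs_arg_neg {w : ℂ} (hw : w ≠ 0) : |(-w).arg| = π - |w.arg| := by
  have h1 := w.neg_pi_lt_arg
  have h2 := w.arg_le_pi
  rcases lt_trichotomy w.im 0 with h | h | h
  · have := Complex.arg_neg_iff.2 h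
    rw [Complex.arg_neg_eq_arg_add_pi_of_im_neg h, abs_of_neg this, abs_of_nonneg (by linarith)]
    ring
  · rcases lt_trichotomy w.re 0 with k | k | k
    · rw [Complex.arg_eq_pi_iff.2 ⟨k, h⟩, (Complex.arg_eq_zero_iff (z := -w)).2 ⟨by simpa using k.le,
        by simpa using h⟩, abs_of_pos pi_pos]
      simp
    · exact absurd (Complex.ext k h) hw
    · rw [Complex.arg_eq_zero_iff.2 ⟨k.le, h⟩, (Complex.arg_eq_pi_iff (z := -w)).2 ⟨by simpa using k,
        by simpa using h⟩, abs_of_pos pi_pos]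
      simp
  · have := Complex.arg_nonneg_iff.2 h.le
    rw [Complex.arg_neg_eq_arg_sub_pi_of_im_pos h, abs_of_nonneg this, abs_of_nonpos (by linarith)]
    ring

theorem wedge_set {m : ℕ} (hm : Fintype.card ι = m + 4) (g : Finset ι → ℝ) (hg : ∀ S, 0 ≤ g S)
    (h0 : 0 < g ∅) (H : ∀ S i, i ∉ S → g (insert i S) * g ∅ ≤ g {i} * g S)
    (H' : ∀ S i, i ∉ S → g (insert i S)ᶜ * g ∅ᶜ ≤ g {i}ᶜ * g Sᶜ) {w : ℂ} (hw : w ≠ 0)
    (h : ∑ S : Finset ι, (g S : ℂ) * (-w) ^ Sᶜ.card = 0) : |w.arg| < π - π / ((m : ℝ) + 2) := by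
  by_contra hn
  obtain ⟨y, hy⟩ : ∃ y, y = (-w)⁻¹ := ⟨_, rfl⟩
  have y0 : 0 < ‖y‖ := by simpa [hy] using hw
  have h1 : ∑ k ∈ range (m + 5), (lvl g k : ℂ) * y ^ k = 0 := by
    have := congrArg (· * y ^ (m + 4)) h
    simp only [zero_mul, sum_mul] at this
    rw [← this, ← powerset_univ, sum_powerset, card_univ, hm]
    refine sum_congr rfl fun k hk => ?_
    rw [lvl, Complex.ofReal_sum, sum_mul]
    refine sum_congr rfl fun S hS => ?_
    have e : m + 4 = Sᶜ.card + k := by rw [← hm, ← (mem_powersetCard.1 hS).2, card_compl_add_card]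
    rw [e, pow_add, mul_assoc, ← mul_assoc (_ ^ _), ← mul_pow, hy,
      mul_inv_cancel₀ (neg_ne_zero.2 hw), one_pow, one_mul]
  have h2 : ∀ k : ℕ, y ^ k = (‖y‖ ^ k : ℝ) * Complex.exp ((k * y.arg : ℝ) * Complex.I) := fun k => by
    conv_lhs => rw [← Complex.norm_mul_exp_arg_mul_I y, mul_pow, ← Complex.exp_nat_mul]
    push_cast; ring_nf
  simp only [h2, ← mul_assoc, ← Complex.ofReal_mul] at h1
  have l0 : ∀ k, 0 ≤ lvl g k := fun k => sum_nonneg fun S _ => hg S
  refine wedge_seq (m := m) (θ := y.arg) (fun k => lvl g k * ‖y‖ ^ k)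
    (fun k => mul_nonneg (l0 k) (by positivity)) (by simpa [lvl] using h0) (fun k => ?_) ?_ ?_ ?_ ?_
  · have := mul_le_mul_of_nonneg_right (lvl_step g hg H k) (pow_pos y0 (k + 1)).le
    calc _ = _ := by ring
      _ ≤ _ := this
      _ = _ := by ring
  · have := lvl_step (fun S => g Sᶜ) (fun S => hg _) H' (m + 2)
    rw [lvl_compl g (l := 1) (by omega), lvl_compl g (l := m + 4) (by omega),
      lvl_compl g (l := m + 3) (by omega), lvl_compl g (l := 2) (by omega)] at this
    have := mul_le_mul_of_nonneg_right this (pow_pos y0 (m + 5)).le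
    push_cast at this
    calc _ = _ := by ring
      _ ≤ _ := this
      _ = _ := by ring
  · rw [hy, Complex.abs_arg_inv, abs_arg_neg hw, ← le_div_iff₀' (by positivity)]
    linarith
  · simpa only [Complex.re_sum, Complex.re_ofReal_mul, Complex.exp_ofReal_mul_I_re,
      Complex.zero_re] using congrArg Complex.re h1
  · simpa only [Complex.im_sum, Complex.im_ofReal_mul, Complex.exp_ofReal_mul_I_im,
      Complex.zero_im] using congrArg Complex.im h1

end Pool.Agent.P.MP_0e199b_al
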