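import Pool.Agent.P.MP_0e199b_al.Stab4
import Pool.Agent.P.MP_0e199b_al.W.Defs
import Pool.Agent.P.MP_0e199b_al.W.Seq

/-! The wedge for omega-matrices and for weakly sign-symmetric P-matrices. -/

namespace Pool.Agent.P.MP_0e199b_al

open Matrix Finset Real
open scoped ComplexOrder

variable {n : ℕ}

/-- principal minors of `A - t` -/
noncomputable def pm (A : Matrix (Fin n) (Fin n) ℂ) (t : ℂ) (α : Finset (Fin n)) : ℂ :=
  (princ (A - t • (1 : Matrix (Fin n) (Fin n) ℂ)) α).det

theorem pm_zero (A : Matrix (Fin n) (Fin n) ℂ) (α : Finset (Fin n)) :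
    pm A 0 α = (princ A α).det := by simp [pm]

@[simp] theorem pm_empty (A : Matrix (Fin n) (Fin n) ℂ) (t : ℂ) : pm A t ∅ = 1 := by
  simp [pm]

theorem mem_spec_pm (A : Matrix (Fin n) (Fin n) ℂ) (α : Finset (Fin n)) (z : ℂ) :
    z ∈ spectrum ℂ (princ A α) ↔ pm A z α = 0 := by
  rw [mem_spec_princ, ← det_princ, pm, ← neg_sub,
    show ∀ M, princ (-M) α = -princ M α from fun _ => rfl, det_neg]
  simp

theorem pm_expand (A : Matrix (Fin n) (Fin n) ℂ) (t s : ℂ) (α : Finset (Fin n)) :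
    pm A (t - s) α = ∑ β ∈ α.powerset, pm A t β * s ^ (α \ β).card := by
  let D := (detRowAlternating : (Fin n → ℂ) [⋀^Fin n]→ₗ[ℂ] ℂ).toMultilinearMap
  have hD : ∀ (M : Matrix (Fin n) (Fin n) ℂ) β,
      (princ M β).det = D (β.piecewise M.row (1 : Matrix (Fin n) (Fin n) ℂ).row) :=
    fun M β => (det_piecewise_one_eq_submatrix_det M β).symm
  let E : Fin n → Fin n → ℂ := α.piecewise (fun i => s • (1 : Matrix (Fin n) (Fin n) ℂ).row i)
    (1 : Matrix (Fin n) (Fin n) ℂ).row
  let M := (A - t • (1 : Matrix (Fin n) (Fin n) ℂ)).row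
  have h1 : α.piecewise (A - (t - s) • (1 : Matrix (Fin n) (Fin n) ℂ)).row
      (1 : Matrix (Fin n) (Fin n) ℂ).row = α.piecewise (M + E) E := by
    funext i j
    by_cases h : i ∈ α <;> simp [h, M, E, Finset.piecewise]
    ring
  rw [pm, hD, h1, D.map_piecewise_add]
  refine sum_congr rfl fun β hβ => ?_
  have h2 : β.piecewise M E = (α \ β).piecewise
      (fun i => s • β.piecewise M (1 : Matrix (Fin n) (Fin n) ℂ).row i)
      (β.piecewise M (1 : Matrix (Fin n) (Fin n) ℂ).row) := by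
    funext i
    by_cases h : i ∈ α <;> by_cases k : i ∈ β <;> simp [h, k, E]
  rw [h2, D.map_piecewise_smul (fun _ => s), pm, hD]
  simp [M, mul_comm]

namespace Lv

variable {A : Matrix (Fin n) (Fin n) ℂ} {L : Finset (Fin n) → ℝ} (h : Lv A L)
include h

theorem pm_nonneg (α : Finset (Fin n)) : ∀ t : ℝ, (α.Nonempty → t ≤ L α) → 0 ≤ pm A t α := by
  induction α using Finset.strongInduction with
  | H α ih =>
    intro t ht
    rcases α.eq_empty_or_nonempty with rfl | hα
    · simp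
    rw [show (t : ℂ) = L α - (L α - t : ℝ) by push_cast; ring, pm_expand]
    refine sum_nonneg fun β hβ => mul_nonneg ?_
      (pow_nonneg (Complex.zero_le_real.2 (sub_nonneg.2 (ht hα))) _)
    rcases (mem_powerset.1 hβ).eq_or_ssubset with rfl | k
    · exact ((mem_spec_pm _ _ _).1 (h.mem _ hα)).ge
    · exact ih β k _ fun e => h.mono _ _ e k.1

theorem fischer (i : Fin n) (α : Finset (Fin n)) : i ∉ α → ∀ t : ℝ, t ≤ L (insert i α) →
    pm A t (insert i α) ≤ pm A t {i} * pm A t α := by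
  induction α using Finset.strongInduction with
  | H α ih =>
    intro hi t ht
    obtain ⟨l, hl⟩ : ∃ l, l = L (insert i α) := ⟨_, rfl⟩
    have hs : (0 : ℂ) ≤ (l - t : ℝ) := Complex.zero_le_real.2 (by linarith)
    rw [show (t : ℂ) = l - (l - t : ℝ) by push_cast; ring]
    generalize ((l - t : ℝ) : ℂ) = s at hs
    have e1 : pm A (l - s) {i} = pm A l {i} + s := by
      rw [pm_expand, ← insert_empty_eq, sum_powerset_insert (notMem_empty _)]
      simp [add_comm]
    rw [e1, pm_expand, pm_expand, sum_powerset_insert hi, ← sum_add_distrib, mul_sum]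
    refine sum_le_sum fun β hβ => ?_
    have hb := mem_powerset.1 hβ
    have hi' : i ∉ β := fun e => hi (hb e)
    rw [insert_sdiff_of_notMem _ hi', card_insert_of_notMem (by simp [hi]),
      insert_sdiff_insert, sdiff_insert_of_notMem hi, ← sub_nonneg]
    have : pm A l (insert i β) ≤ pm A l {i} * pm A l β := by
      rcases hb.eq_or_ssubset with rfl | k
      · rw [hl, (mem_spec_pm _ _ _).1 (h.mem _ (insert_nonempty _ _))]
        exact mul_nonneg (h.pm_nonneg _ _ fun e => h.mono _ _ e (by simp))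
          (h.pm_nonneg _ _ fun e => h.mono _ _ e (subset_insert _ _))
      · exact ih β k hi' l (hl ▸ h.mono _ _ (insert_nonempty _ _) (insert_subset_insert _ hb))
    exact (mul_nonneg (sub_nonneg.2 this) (pow_nonneg hs (α \ β).card)).trans_eq (by ring)

end Lv

theorem re_mul_le {a b c d : ℂ} (ha : 0 ≤ a) (hc : 0 ≤ c) (h : a * b ≤ c * d) :
    a.re * b.re ≤ c.re * d.re := by
  simpa [← (Complex.le_def.1 ha).2, ← (Complex.le_def.1 hc).2] using (Complex.le_def.1 h).1

theorem wedge_pm {m : ℕ} (A : Matrix (Fin (m + 4)) (Fin (m + 4)) ℂ) (t : ℂ)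
    (hg : ∀ S, 0 ≤ pm A t S) (H : ∀ S i, i ∉ S → pm A t (insert i S) ≤ pm A t {i} * pm A t S)
    (H' : ∀ S i, i ∉ S → pm A t (insert i S)ᶜ * pm A t univ ≤ pm A t {i}ᶜ * pm A t Sᶜ) {z : ℂ}
    (hz : z ∈ spectrum ℂ A) (hw : z ≠ t) : |(z - t).arg| < π - π / ((m : ℝ) + 2) := by
  refine wedge_set (Fintype.card_fin _) (fun S => (pm A t S).re)
    (fun S => (Complex.le_def.1 (hg S)).1) (by simp)
    (fun S i hi => re_mul_le (hg _) (hg _) (by simpa using H S i hi))
    (fun S i hi => re_mul_le (hg _) (hg _) (by simpa using H' S i hi)) (sub_ne_zero.2 hw) ?_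
  rw [← spec_princ_univ, mem_spec_pm, show z = t - -(z - t) by ring, pm_expand] at hz
  rw [← hz]
  refine sum_congr rfl fun S _ => ?_
  rw [← Complex.eq_re_of_ofReal_le (r := 0) (hg S), compl_eq_univ_sdiff]

theorem wedge_omega {m : ℕ} (A : Matrix (Fin (m + 4)) (Fin (m + 4)) ℂ) (hA : IsOmega A) {z : ℂ}
    (hz : z ∈ spectrum ℂ A) (hw : z ≠ ((lmin A).toReal : ℂ)) :
    |(z - ((lmin A).toReal : ℂ)).arg| < π - π / ((m : ℝ) + 2) := by
  obtain ⟨L, h⟩ := exists_Lv hA
  have e : (lmin A).toReal = L univ := by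
    rw [← lmin_princ_univ, h.eq _ univ_nonempty, EReal.toReal_coe]
  rw [e] at hw ⊢
  have hg : ∀ S, 0 ≤ pm A (L univ) S := fun S =>
    h.pm_nonneg S _ fun k => h.mono _ _ k (subset_univ _)
  refine wedge_pm A _ hg (fun S i hi => h.fischer i S hi _
    (h.mono _ _ (insert_nonempty _ _) (subset_univ _))) (fun S i _ => ?_) hz hw
  rw [(mem_spec_pm _ _ _).1 (h.mem _ univ_nonempty), mul_zero]
  exact mul_nonneg (hg _) (hg _)

theorem exists_reindex {ι κ X : Type} {p : ι → X} {q : κ → X} (hp : Function.Injective p)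
    (hq : Function.Injective q) (h : Set.range p = Set.range q) : ∃ σ : ι ≃ κ, p = q ∘ σ :=
  ⟨(Equiv.ofInjective p hp).trans ((Equiv.setCongr h).trans (Equiv.ofInjective q hq).symm),
    funext fun a => by simp [Equiv.apply_ofInjective_symm]⟩

theorem schur (A : Matrix (Fin n) (Fin n) ℂ) (γ : Finset (Fin n)) (h : pm A 0 γ ≠ 0) :
    ∃ K : Matrix (Fin n) (Fin n) ℂ, ∀ (k : ℕ) (u w : Fin k → Fin n),
      (A.submatrix (Sum.elim (Subtype.val : γ → Fin n) u) (Sum.elim Subtype.val w)).det =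
        pm A 0 γ * (K.submatrix u w).det := by
  rw [pm_zero] at h ⊢
  have := (princ A γ).invertibleOfIsUnitDet (Ne.isUnit h)
  refine ⟨A - (A.submatrix id (Subtype.val : γ → Fin n) * ⅟(princ A γ) : Matrix (Fin n) γ ℂ) *
    A.submatrix (Subtype.val : γ → Fin n) id, fun k u w => ?_⟩
  have e : A.submatrix (Sum.elim (Subtype.val : γ → Fin n) u) (Sum.elim Subtype.val w) =
      fromBlocks (princ A γ) (A.submatrix Subtype.val w) (A.submatrix u Subtype.val)
        (A.submatrix u w) := by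
    ext (a | a) (b | b) <;> rfl
  rw [e, det_fromBlocks₁₁]
  rfl

theorem elim_inj (γ : Finset (Fin n)) {k : ℕ} {u : Fin k → Fin n} (hu : Function.Injective u)
    (h : ∀ a, u a ∉ γ) : Function.Injective (Sum.elim (Subtype.val : γ → Fin n) u) :=
  Subtype.val_injective.sumElim hu fun a b e => h b (e ▸ a.2)

/-- The Desnanot-Jacobi identity. -/
theorem desnanot (A : Matrix (Fin n) (Fin n) ℂ) {γ : Finset (Fin n)} (h : pm A 0 γ ≠ 0)
    {i j : Fin n} (hi : i ∉ γ) (hj : j ∉ γ) (hij : i ≠ j) {k : ℕ} (hα : (insert i γ).card = k)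
    (hβ : (insert j γ).card = k) :
    minor A hα hβ * minor A hβ hα = pm A 0 (insert i γ) * pm A 0 (insert j γ) -
      pm A 0 γ * pm A 0 (insert i (insert j γ)) := by
  obtain ⟨K, hK⟩ := schur A γ h
  have r1 : ∀ i, Set.range (Sum.elim (Subtype.val : γ → Fin n) ![i]) = (insert i γ : Finset _) :=
    fun i => by simp [Set.Sum.elim_range]
  have i1 : ∀ {i}, i ∉ γ → Function.Injective (Sum.elim (Subtype.val : γ → Fin n) ![i]) :=
    fun hi => elim_inj γ (Function.injective_of_subsingleton _) (by simpa using hi)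
  have pr : ∀ {k} (u : Fin k → Fin n) (α : Finset (Fin n)),
      Function.Injective (Sum.elim (Subtype.val : γ → Fin n) u) →
      Set.range (Sum.elim (Subtype.val : γ → Fin n) u) = α →
      pm A 0 α = pm A 0 γ * (K.submatrix u u).det := fun u α hu hr => by
    obtain ⟨σ, hσ⟩ := exists_reindex hu Subtype.val_injective (hr.trans Subtype.range_coe.symm)
    rw [← hK, hσ, ← submatrix_submatrix, det_submatrix_equiv_self, pm_zero]
    rfl
  obtain ⟨σ, hσ⟩ := exists_reindex (i1 hi) ((insert i γ).orderEmbOfFin hα).injective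
    ((r1 i).trans (range_orderEmbOfFin _ _).symm)
  obtain ⟨τ, hτ⟩ := exists_reindex (i1 hj) ((insert j γ).orderEmbOfFin hβ).injective
    ((r1 j).trans (range_orderEmbOfFin _ _).symm)
  have e := congrArg₂ (· * ·) (hK 1 ![i] ![j]) (hK 1 ![j] ![i])
  simp only [hσ, hτ, ← submatrix_submatrix, ← det_mul, submatrix_mul_equiv,
    det_submatrix_equiv_self] at e
  rw [minor, minor, ← det_mul, e, pr _ _ (i1 hi) (r1 i), pr _ _ (i1 hj) (r1 j),
    pr ![i, j] (insert i (insert j γ))
    (elim_inj γ (by simpa [Function.Injective, Fin.forall_fin_two, hij] using hij.symm)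
      (by simp [Fin.forall_fin_two, hi, hj])) (by ext; simp [Set.Sum.elim_range]; tauto)]
  simp only [det_fin_two, det_unique, submatrix_apply, cons_val_zero, cons_val_one,
    Fin.default_eq_zero]
  ring

theorem IsGKK.pos {A : Matrix (Fin n) (Fin n) ℂ} (h : IsGKK A) (α : Finset (Fin n)) :
    0 < pm A 0 α := by
  rcases α.eq_empty_or_nonempty with rfl | hα
  · simp
  · rw [pm_zero]; exact Complex.lt_def.2 ⟨(h.1 α hα).2, (h.1 α hα).1.symm⟩

theorem IsGKK.hf {A : Matrix (Fin n) (Fin n) ℂ} (h : IsGKK A) {i : Fin n} (α β : Finset (Fin n)) :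
    i ∉ α ∪ β → pm A 0 (insert i (α ∪ β)) * pm A 0 α ≤ pm A 0 (insert i α) * pm A 0 (α ∪ β) := by
  induction β using Finset.induction with
  | empty => simp
  | insert j β _ ih =>
    rw [union_insert]
    intro hi
    rw [mem_insert, not_or] at hi
    by_cases hj : j ∈ α ∪ β
    · rw [insert_eq_of_mem hj]; exact ih hi.2
    have e : (insert j (α ∪ β)).card = (insert i (α ∪ β)).card := by
      rw [card_insert_of_notMem hj, card_insert_of_notMem hi.2]
    have k := h.2 _ _ _ rfl e (by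
      rw [insert_union, union_eq_right.2 (subset_insert _ _), card_insert_of_notMem (by
        rw [mem_insert, not_or]; exact hi), e])
    have k' := (Complex.le_def.2 ⟨k.2, k.1.symm⟩ : (0 : ℂ) ≤ _)
    rw [desnanot A (h.pos _).ne' hi.2 hj hi.1, sub_nonneg] at k'
    refine le_of_mul_le_mul_left ?_ (h.pos (α ∪ β))
    calc _ = _ := by ring
      _ ≤ _ := mul_le_mul_of_nonneg_right k' (h.pos α).le
      _ = _ := by ring
      _ ≤ _ := mul_le_mul_of_nonneg_right (ih hi.2) (h.pos (insert j (α ∪ β))).le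
      _ = _ := by ring

theorem wedge_gkk {m : ℕ} (A : Matrix (Fin (m + 4)) (Fin (m + 4)) ℂ) (hA : IsGKK A) {z : ℂ}
    (hz : z ∈ spectrum ℂ A) : |z.arg| < π - π / ((m : ℝ) + 2) := by
  have := wedge_pm A 0 (fun S => (hA.pos S).le)
    (fun S i hi => by simpa using hA.hf ∅ S (by simpa using hi))
    (fun S i hi => ?_) hz (fun e => ?_)
  · simpa using this
  · have e1 : (insert i S)ᶜ ∪ {i}ᶜ = {i}ᶜ := by ext; simp; tauto
    have e2 : insert i (insert i S)ᶜ = Sᶜ := by ext x; by_cases x = i <;> simp [*]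
    have := hA.hf (i := i) (insert i S)ᶜ {i}ᶜ (by simp)
    rw [e1, e2, insert_compl_self] at this
    rwa [mul_comm, mul_comm (pm A 0 {i}ᶜ)]
  · rw [e, ← spec_princ_univ, mem_spec_pm] at hz
    exact (hA.pos _).ne' hz

end Pool.Agent.P.MP_0e199b_al
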